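import Pool.Agent.RTL.Stmt

set_option autoImplicit false

/-!
# MP_78858f_nt: a cut theorem for Selmer groups in Ribet's lemma

Bloch-Kato for spinor L-values of genus 2 Siegel eigenforms: the algebraic part of the lower bound
for the Selmer group, given a congruence.

Setting.  `O` is a complete discrete valuation ring with uniformizer `ϖ`, `G` a group, `C` a class
of `O`-modules with an `O`-linear action of `G`, closed under subobjects, quotients and products of
two objects.  The forms `l ∈ L` (finitely many) have integral representations `σ l` of rank `N`; all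
reductions `σ l mod ϖ ^ r` are in `C`.  The constituents `τ i`, `i ∈ ι`, are representations over
`O` of ranks `n i`, `N = ∑ n i`, residually absolutely irreducible and pairwise disjoint.  The
traces satisfy `tr σ_l ≡ ∑ tr τ_i` modulo `ϖ`, and jointly with total depth `m`: the Hecke algebra
(the `O`-subalgebra of `L → O` generated by the vectors `(tr σ_l(g))_l`) has a homomorphism to
`O / ϖ ^ m` with `tr σ(g) ↦ ∑ tr τ_i(g)`.  (For one form: the congruence holds modulo `ϖ ^ m`.)

Theorem.  There are numbers `c i j α` (`i ≠ j`, `α ∈ L`) such that `H¹(G, Hom(τ_j, τ_i) / ϖ ^ m)`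
contains a copy of `⨁_α O / ϖ ^ (c i j α)` all of whose elements are classes of extensions of
`τ_j mod ϖ ^ m` by `τ_i mod ϖ ^ m` which are in `C`, and for every nonempty set `P` of
constituents such that no form has a quotient with residual constituents `P` (for instance: all
`σ l` irreducible, `P` not everything)
`m ≤ ∑_{i ∈ P} ∑_{j ∉ P} ∑_α c i j α`.

So the length of the product of the Selmer groups `H¹_C(G, Hom(τ_j, τ_i) / ϖ ^ m)` over the pairs
`i ∈ P`, `j ∉ P` is at least `m`; for one form the subgroups are cyclic, and there are classes of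
order `ϖ ^ (c i j)` with `∑ c i j ≥ m`.

For the problem: `G` = Galois group of `ℚ`, `O = O_q`, `w = j + 2 k - 3`, three constituents
`O(1 - t)`, `O(t - 1 - w)`, `T_q`; `C` = finite modules unramified outside `q` and crystalline
with weights in `[0, w]`; `σ l` = the six-dimensional representations of the forms on `SO(4,3)`.
`P = {O(1 - t)}` gives
`length H¹_f(T_q^*(1 - t) ⊗ A) ≥ m - length H¹_f(A(-2 s))`:
the total depth of the congruence minus the defect from the Bernoulli number `B_{2s+1}`.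
-/

namespace Pool.Agent.Results.MP_78858f_nt.RibetCuts

open Pool.Agent.RTL

universe u v

theorem result (O : Type u) [CommRing O] [IsDomain O] [IsDiscreteValuationRing O] (ϖ : O)
    (hϖ : Irreducible ϖ) (hcomplete : IsAdicComplete (Ideal.span ({ϖ} : Set O)) O)
    (G : Type v) [Group G] (C : ActClass O G) (hC : C.Closed)
    (L ι : Type) [Fintype L] [Nonempty L] [Fintype ι] [DecidableEq ι]
    (n : ι → ℕ) (hn : ∀ i, 0 < n i) (N : ℕ) (hN : N = ∑ i, n i)
    (σ : L → G →* Matrix (Fin N) (Fin N) O)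
    (τ : (i : ι) → G →* Matrix (Fin (n i)) (Fin (n i)) O)
    (hσ : ∀ l r, C (Fin N → Quo ϖ r) (fun g => act (red ϖ r (σ l g))))
    (hirr : ∀ i, ResAbsIrr ϖ (τ i)) (hdis : ∀ i j, i ≠ j → ResDisjoint ϖ (τ i) (τ j))
    (hres : ∀ l g, ϖ ∣ (σ l g).trace - ∑ i, (τ i g).trace)
    (m : ℕ) (hm : 0 < m) (hdepth : TotalDepth ϖ m σ τ) :
    ∃ c : ι → ι → L → ℕ,
      (∀ i j, i ≠ j → ∃ Φ : ((α : L) → Quo ϖ (c i j α)) →ₗ[O]
          (G → Matrix (Fin (n i)) (Fin (n j)) (Quo ϖ m)),
        ∀ x, IsCocycle ϖ m (τ i) (τ j) (Φ x) ∧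
          (IsCoboundary ϖ m (τ i) (τ j) (Φ x) → x = 0) ∧
          C (Fin (n i) ⊕ Fin (n j) → Quo ϖ m) (extAct ϖ m (τ i) (τ j) (Φ x))) ∧
      ∀ P : Finset ι, P.Nonempty → (∀ l, NoQuotientOn ϖ P (σ l) τ) →
        m ≤ ∑ i ∈ P, ∑ j ∈ Pᶜ, ∑ α, c i j α := by
  obtain ⟨c, h1, h2⟩ := a_CUT O ϖ hϖ hcomplete G (STMT_.toRep C) (STMT_.toRep_closed C hC) L ι n
    hn N hN σ τ (fun l r => hσ l r) hirr hdis hres m hm hdepth
  refine ⟨c, fun i j hij => ?_, h2⟩
  obtain ⟨Φ, hΦ⟩ := h1 i j hij
  refine ⟨Φ, fun x => ?_⟩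
  obtain ⟨h3, z, hz, h4⟩ := hΦ x
  refine ⟨?_, h3, ?_⟩
  · rw [← hz]
    exact z.2
  · rw [← hz]
    exact STMT_.ext_mem C hC ϖ m (τ i) (τ j) z h4

end Pool.Agent.Results.MP_78858f_nt.RibetCuts
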