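import Pool.Agent.RTL.Stmt
import Pool.Agent.RRC.All
import Pool.Agent.RRC.CExists

set_option autoImplicit false

/-!
# MP_78858f_nt: cuts of Ribet's lemma when the constituents are residually reducible

Bloch-Kato for spinor L-values of genus 2 Siegel eigenforms: the algebraic part of the lower bound
for the Selmer group, given a congruence, at the primes `q` where the constituents are residually
reducible or not disjoint.

Setting.  `O` is a complete discrete valuation ring with uniformizer `ϖ`, `G` a group, `C` a class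
of `O`-modules with an `O`-linear action of `G`, closed under subobjects, quotients and products of
two objects.  The constituents `τ i`, `i ∈ ι`, are representations over `O` of ranks `n i`,
`N = ∑ n i`.  Nothing is assumed on the residual representations.

1. If the `τ i` are absolutely irreducible over the fraction field and pairwise not isomorphic,
there is a number `c` such that `ϖ ^ c` times every element of `∏ M_{n i}(O)` is in the `O`-span of
the values of `(τ i)_i`.  (`c = 0` is the case of residually absolutely irreducible and pairwise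
disjoint constituents.)

2. Let `c` be such a number, and let the residue field have at least `N` elements.  Let `σ` be a
representation over `O` of rank `N`, irreducible over the fraction field, with
`tr σ ≡ ∑ tr τ_i` modulo `ϖ ^ m`, and let all `σ mod ϖ ^ r` and `τ i mod ϖ ^ m` be in `C`.  Then
there are numbers `cc i j` and, for `i ≠ j`, classes of order at least `ϖ ^ (cc i j)` in
`H¹(G, Hom(τ_j, τ_i) / ϖ ^ m)` which belong to extensions in `C`, such that for every nonempty
proper set `P` of constituents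
`m ≤ ∑_{i ∈ P} ∑_{j ∉ P} cc i j + 9 N |P| |Pᶜ| c`.
The loss depends only on the `τ i`, not on `σ`, `m` or `C`.
-/

namespace Pool.Agent.Results.MP_78858f_nt.RibetReducible

open Pool.Agent.RTL Matrix

universe u v

theorem result (O : Type u) [CommRing O] [IsDomain O] [IsDiscreteValuationRing O] (ϖ : O)
    (hϖ : Irreducible ϖ) (hcomplete : IsAdicComplete (Ideal.span ({ϖ} : Set O)) O)
    (G : Type v) [Group G] (ι : Type) [Fintype ι] [DecidableEq ι]
    (n : ι → ℕ) (hn : ∀ i, 0 < n i) (N : ℕ) (hN : N = ∑ i, n i)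
    (τ : (i : ι) → G →* Matrix (Fin (n i)) (Fin (n i)) O)
    (hbig : ∃ d : (Σ i, Fin (n i)) → O, ∀ y z, y ≠ z → IsUnit (d y - d z)) :
    ((∀ i, ∀ W : Submodule (FractionRing O) (Fin (n i) → FractionRing O),
        (∀ g, ∀ w ∈ W, (τ i g).map (algebraMap O (FractionRing O)) *ᵥ w ∈ W) →
          W = ⊥ ∨ W = ⊤) →
      (∀ i, ∀ X : Matrix (Fin (n i)) (Fin (n i)) (FractionRing O),
        (∀ g, (τ i g).map (algebraMap O (FractionRing O)) * X =
          X * (τ i g).map (algebraMap O (FractionRing O))) →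
            ∃ x : FractionRing O, X = x • (1 : Matrix (Fin (n i)) (Fin (n i)) (FractionRing O))) →
      (∀ i j, i ≠ j → ∀ X : Matrix (Fin (n i)) (Fin (n j)) (FractionRing O),
        (∀ g, (τ i g).map (algebraMap O (FractionRing O)) * X =
          X * (τ j g).map (algebraMap O (FractionRing O))) → X = 0) →
      ∃ c : ℕ, ∀ b : (i : ι) → Matrix (Fin (n i)) (Fin (n i)) O, ∃ a : G →₀ O,
        ∀ i, a.sum (fun g x => x • τ i g) = ϖ ^ c • b i) ∧
    ∀ c : ℕ, (∀ b : (i : ι) → Matrix (Fin (n i)) (Fin (n i)) O, ∃ a : G →₀ O,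
        ∀ i, a.sum (fun g x => x • τ i g) = ϖ ^ c • b i) →
      ∀ (C : ActClass O G), C.Closed → ∀ (σ : G →* Matrix (Fin N) (Fin N) O) (m : ℕ),
      (∀ g, ϖ ^ m ∣ (σ g).trace - ∑ i, (τ i g).trace) →
      (∀ W : Submodule O (Fin N → O), (∀ g, ∀ w ∈ W, σ g *ᵥ w ∈ W) →
        W = ⊥ ∨ ∃ k : ℕ, ∀ v : Fin N → O, ϖ ^ k • v ∈ W) →
      (∀ r, C (Fin N → Quo ϖ r) (fun g => act (red ϖ r (σ g)))) →
      (∀ i, C (Fin (n i) → Quo ϖ m) (fun g => act (red ϖ m (τ i g)))) →
      ∃ cc : ι → ι → ℕ,
        (∀ i j, i ≠ j → ∃ z : G → Matrix (Fin (n i)) (Fin (n j)) (Quo ϖ m),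
          IsCocycle ϖ m (τ i) (τ j) z ∧
          C (Fin (n i) ⊕ Fin (n j) → Quo ϖ m) (extAct ϖ m (τ i) (τ j) z) ∧
          ∀ l : ℕ, IsCoboundary ϖ m (τ i) (τ j) (ϖ ^ l • z) → cc i j ≤ l) ∧
        ∀ P : Finset ι, P.Nonempty → P ≠ Finset.univ →
          m ≤ ∑ i ∈ P, ∑ j ∈ Pᶜ, cc i j + 9 * N * P.card * Pᶜ.card * c := by
  refine ⟨fun h1 h2 h3 => Pool.Agent.RRC.c_exists_of_irreducible ϖ hϖ n hn τ h1 h2 h3, ?_⟩
  intro c hspan C hC σ m htrace hirr hσ hτ
  obtain ⟨cc, h1, h2⟩ := Pool.Agent.RRC.a_MAIN O ϖ hϖ hcomplete G (STMT_.toRep C)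
    (STMT_.toRep_closed C hC) ι n hn N hN σ τ c m hbig hspan htrace hirr (fun r => hσ r)
    (fun i => hτ i)
  refine ⟨cc, fun i j hij => ?_, h2⟩
  obtain ⟨z, hz1, hz2⟩ := h1 i j hij
  exact ⟨z.1, z.2, STMT_.ext_mem C hC ϖ m (τ i) (τ j) z hz1, fun l hl => hz2 l hl⟩

end Pool.Agent.Results.MP_78858f_nt.RibetReducible
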