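import Pool.Agent.TFL.Galois

/-!
# Lattices for which both torsion terms of the Bloch-Kato formula vanish

`O` is a discrete valuation ring over `ℤ_q`, `q` odd, with fraction field `K`, and `V` is an
absolutely irreducible `K`-linear representation of the absolute Galois group of `ℚ` with a stable
lattice, on which some element of order two (complex conjugation) has both eigenvalues `1` and
`-1`. Then for every integer `t` there is a stable lattice `T` such that both
`H⁰(ℚ, T(t) ⊗ A)` and `H⁰(ℚ, T*(1 - t) ⊗ A)` vanish, `A = K / O`.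
-/

set_option autoImplicit false

universe u v w

open Pool.Agent.TFL in
theorem Pool.Agent.Results.MP_78858f_nt.TorsionFreeLattice.result
    (q : ℕ) [Fact q.Prime] (hq : q ≠ 2)
    (O : Type u) [CommRing O] [IsDomain O] [IsDiscreteValuationRing O] [Algebra ℤ_[q] O]
    (K : Type v) [Field K] [Algebra O K] [IsFractionRing O K]
    (V : Type w) [AddCommGroup V] [Module K V] [Module O V] [IsScalarTower O K V]
    (ρ : GQ →* (V →ₗ[K] V))
    (habs : Submodule.span K (Set.range fun σ => ρ σ) = ⊤)
    (T₀ : Submodule O V) (h₀ : StableLattice ρ T₀)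
    (c : GQ) (hc : c * c = 1) (hp : ρ c ≠ 1) (hm : ρ c ≠ -1) (t : ℤ) :
    ∃ T : Submodule O V, StableLattice ρ T ∧ NoInvariants q ρ t T ∧ NoDualInvariants q ρ t T :=
  torsion_free hq ρ habs T₀ h₀ c hc hp hm t
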