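import Pool.Agent.TSP.F

/-!
# The spectrum of the torsion term of the Bloch-Kato formula over all stable lattices

`V` is an irreducible representation of the absolute Galois group of `ℚ`, of dimension at least two,
over the fraction field `K` of a discrete valuation ring `O` over `ℤ_q`, with a stable lattice,
`A = K / O`. Assume that some element `g₀` of the Galois group acts on `V` with eigenvalues in `O`,
one of which is `ε(g₀)^(-t)`, that no product of `m ≥ 1` of the others is congruent to the `m`-th
power of this one, and that Frobenius elements are dense (Chebotarev). Then there is `h` such that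

* `H⁰(ℚ, T(t) ⊗ A)` is isomorphic to some `O / ϖ^i`, `i ≤ h`, for every stable lattice `T`;
* every `i ≤ h` occurs for some stable lattice `T`;
* `h` is the minimum of the valuations of the values `P_p(p^t)` of the characteristic polynomials
  of Frobenius, over all primes `p` of the given set.
-/

set_option autoImplicit false

universe u v w z

open Pool.Agent.TFL Pool.Agent.TSP in
theorem Pool.Agent.Results.MP_78858f_nt.TorsionSpectrum.result
    (q : ℕ) [Fact q.Prime]
    (O : Type u) [CommRing O] [IsDomain O] [IsDiscreteValuationRing O] [Algebra ℤ_[q] O]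
    (ϖ : O) (hϖ : Irreducible ϖ)
    (K : Type v) [Field K] [Algebra O K] [IsFractionRing O K]
    (V : Type w) [AddCommGroup V] [Module K V] [Module O V] [IsScalarTower O K V]
    [FiniteDimensional K V] (hdim : 2 ≤ Module.finrank K V)
    (ρ : GQ →* (V →ₗ[K] V)) (hirr : Irr ρ) (T₀ : Submodule O V) (hT₀ : StableLattice ρ T₀)
    (t : ℤ) (g₀ : GQ) (ι : Type z) [Fintype ι] [DecidableEq ι] (b : Module.Basis ι K V)
    (lam : ι → O) (i₀ : ι) (hreg : Regular q ρ t g₀ b lam i₀)
    (S : Set ℕ) (fr : ℕ → GQ) (hS : DenseFrobenii q ϖ ρ T₀ S fr) :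
    ∃ h : ℕ,
      (∀ T : Submodule O V, StableLattice ρ T →
        ∃ i, i ≤ h ∧ Nonempty (H0 q ρ t T ≃ₗ[O] O ⧸ Ideal.span {ϖ ^ i})) ∧
      (∀ i, i ≤ h → ∃ T : Submodule O V, StableLattice ρ T ∧
        Nonempty (H0 q ρ t T ≃ₗ[O] O ⧸ Ideal.span {ϖ ^ i})) ∧
      ∀ i, i ≤ h ↔ ∀ p ∈ S, ∃ r : O,
        (ρ (fr p)).charpoly.eval ((p : K) ^ t) = algebraMap O K (ϖ ^ i * r) :=
  spectrum hreg hϖ hirr hdim T₀ hT₀ S fr hS
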